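import Pool.Agent.R629.NF.Ell

/-!
# A transcendence criterion for modularity over imaginary quadratic fields

Let `E : y² + a₁xy + a₃y = x³ + a₂x² + a₄x + a₆` be an elliptic curve over an imaginary quadratic field
`K` (any quadratic field will do) and let `b_v` be the eigenvalues of a Bianchi newform `F` of weight 2,
or any other real numbers with `|b_v| ≤ 2 √q_v` for almost all `v`.  Let `S` be a finite set of rational
primes which contains `2`, `3`, the ramified primes and the primes below the primes of bad reduction.
Let `χ` be a Hecke character of absolute value `1`, or any family of complex numbers `χ(v)` of absolute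
value `1`.  The Euler products

`L_S(E ⊗ χ, s) = ∏ (1 - χ(v) a_v q_v^{-s} + χ(v)² q_v^{1-2s})⁻¹`,
`L_S(F ⊗ χ, s) = ∏ (1 - χ(v) b_v q_v^{-s} + χ(v)² q_v^{1-2s})⁻¹`

converge for `Re s > 3/2` and have boundary values `l(τ)`, `l'(τ)` at `3/2 + iτ`, for all `τ` outside a
set of Hausdorff dimension `0`.  The theorem decides by the arithmetic nature of these boundary values
whether `E` is modular by `F`.
-/

set_option autoImplicit false

namespace Pool.Agent.Results.MP_87c685_nt.ModularityCriterion

open MeasureTheory Filter Topology NumberField IsDedekindDomain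
open Pool.Agent.R629.NF
open Pool.Agent.TH339.MP (nm pr dg Sp affc)

/-- The trace of Frobenius `a_v`: the norm of `v` minus the number of solutions of the Weierstrass
equation in the residue field. -/
noncomputable def trace {K : Type} [Field K] [NumberField K] (W : WeierstrassCurve (𝓞 K))
    (v : HeightOneSpectrum (𝓞 K)) : ℝ :=
  (nm v : ℝ) - affc (W.map (Ideal.Quotient.mk v.asIdeal))

/-- If `v` and `w` are the two primes above a prime `p ∉ S` then `χ(v)/χ(w)` is not real. -/
def Separating {K : Type} [Field K] [NumberField K] (S : Finset ℕ)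
    (χ : HeightOneSpectrum (𝓞 K) → ℂ) : Prop :=
  ∀ v w : HeightOneSpectrum (𝓞 K), (pr v : ℕ) ∉ S → pr v = pr w → v ≠ w → (χ v / χ w).im ≠ 0

/-- **Modularity criterion.**
* The Euler products have boundary functions on the line `Re s = 3/2`.
* If `χ` is separating (for instance a Hecke character of infinite order of `K` with
  `χ(v) χ(v̄) = 1`) then `a_v = b_v` for all but finitely many `v`, that is, `E` is modular by `F` up to
  finitely many Euler factors, if and only if `l(τ)` is algebraic over `k(l'(τ), τ, p^{-iτ} : p prime)`
  for some countable field `k` and almost all `τ`; otherwise it is transcendental over this field for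
  every countable field `k` and almost all `τ`.
* For `χ = 1` the same holds with the condition that, for all but finitely many rational primes `p`,
  the families `(a_v)`, `v | p`, and `(b_v)`, `v | p`, are equal as multisets, that is,
  `L(E, s) = L(F, s)` up to finitely many Euler factors. -/
theorem result (K : Type) [Field K] [NumberField K] (hK : Module.finrank ℚ K = 2)
    (W : WeierstrassCurve (𝓞 K)) (b : HeightOneSpectrum (𝓞 K) → ℝ) (S : Finset ℕ)
    (h2 : 2 ∈ S) (h3 : 3 ∈ S) (hS : Unram K S)
    (hW : ∀ v : HeightOneSpectrum (𝓞 K), (pr v : ℕ) ∉ S → W.Δ ∉ v.asIdeal)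
    (hb : ∀ v : HeightOneSpectrum (𝓞 K), (pr v : ℕ) ∉ S → |b v| ≤ 2 * Real.sqrt (nm v)) :
    (∀ χ : HeightOneSpectrum (𝓞 K) → ℂ, (∀ v, ‖χ v‖ = 1) →
      (∃ l : ℝ → ℂ, IsEdge S χ (trace W) l) ∧ ∃ l' : ℝ → ℂ, IsEdge S χ b l') ∧
    (∀ χ : HeightOneSpectrum (𝓞 K) → ℂ, (∀ v, ‖χ v‖ = 1) → Separating S χ →
      ∀ l l' : ℝ → ℂ, IsEdge S χ (trace W) l → IsEdge S χ b l' →
        ({v : HeightOneSpectrum (𝓞 K) | (pr v : ℕ) ∉ S ∧ trace W v ≠ b v}.Finite ↔
          Dependent l l') ∧ (Dependent l l' ∨ Independent l l')) ∧
    (∀ l l' : ℝ → ℂ, IsEdge S (fun _ => 1) (trace W) l → IsEdge S (fun _ => 1) b l' →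
        ({p : Nat.Primes | (p : ℕ) ∉ S ∧ (Sp p).val.map (trace W) ≠ (Sp p).val.map b}.Finite ↔
          Dependent l l') ∧ (Dependent l l' ∨ Independent l l')) := by
  classical
  have ha : ∀ v : HeightOneSpectrum (𝓞 K), (pr v : ℕ) ∉ S →
      |trace W v| ≤ 2 * Real.sqrt (nm v) := by
    intro v hv
    have h6 : (6 : 𝓞 K) ∉ v.asIdeal := by
      intro h
      have h4 := Pool.Agent.TH339.MP.mem_S6 h
      unfold Pool.Agent.TH339.MP.S6 at h4
      rcases Finset.mem_union.1 h4 with h4 | h4
      · rw [(Pool.Agent.TH339.MP.mem_Sp _ v).1 h4] at hv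
        exact hv h2
      · rw [(Pool.Agent.TH339.MP.mem_Sp _ v).1 h4] at hv
        exact hv h3
    have h5 := Pool.Agent.TH339.MP.av_bound (fun _ => W) v h6
    rw [if_neg (hW v hv)] at h5
    exact h5
  have hfib : ∀ T : Set (HeightOneSpectrum (𝓞 K)), (pr '' T).Finite → T.Finite := by
    intro T hT
    refine (hT.biUnion fun p _ => (Sp p).finite_toSet).subset fun v hv => ?_
    rw [Set.mem_iUnion₂]
    exact ⟨pr v, ⟨v, hv, rfl⟩, (Pool.Agent.TH339.MP.mem_Sp _ _).2 rfl⟩
  have hloc : ∀ (χ : HeightOneSpectrum (𝓞 K) → ℂ) (p : Nat.Primes),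
      (∀ v ∈ (Sp p : Finset (HeightOneSpectrum (𝓞 K))), trace W v = b v) →
      locPoly χ (trace W) p = locPoly χ b p := by
    intro χ p h
    unfold locPoly
    exact Finset.prod_congr rfl fun v hv => by rw [h v hv]
  refine ⟨fun χ hχ => ⟨exists_edge hS hχ ha, exists_edge hS hχ hb⟩, ?_, ?_⟩
  · intro χ hχ hsep l l' hl hl'
    obtain ⟨h4, h5⟩ := pair hS hχ ha hb hl hl'
    refine ⟨?_, h5⟩
    rw [← h4]
    constructor
    · intro hfin
      refine (hfin.image pr).subset ?_
      rintro p ⟨hp, hne⟩
      by_contra hno
      apply hne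
      refine hloc χ p fun v hv => ?_
      rw [Pool.Agent.TH339.MP.mem_Sp] at hv
      by_contra h6
      exact hno ⟨v, ⟨by rw [hv]; exact hp, h6⟩, hv⟩
    · intro hfin
      refine hfib _ (hfin.subset ?_)
      rintro _ ⟨v, ⟨hv, hne⟩, rfl⟩
      refine ⟨hv, fun h => hne ?_⟩
      have hmem : v ∈ (Sp (pr v) : Finset (HeightOneSpectrum (𝓞 K))) :=
        (Pool.Agent.TH339.MP.mem_Sp _ _).2 rfl
      rcases quad_cases hK hS hv with ⟨u, hu, _⟩ | ⟨u, w, huw, hu, hdu, hdw⟩
      · have h6 := inert_eq hu hχ h
        rw [hu, Finset.mem_singleton] at hmem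
        rw [hmem]
        exact h6
      · obtain ⟨h7, -⟩ := split_eq huw hu hdu hdw h
        have hu1 : pr u = pr v := (Pool.Agent.TH339.MP.mem_Sp _ _).1 (by rw [hu]; simp)
        have hw1 : pr w = pr v := (Pool.Agent.TH339.MP.mem_Sp _ _).1 (by rw [hu]; simp)
        have hχw : χ w ≠ 0 := by
          intro h0
          have := hχ w
          rw [h0, norm_zero] at this
          exact zero_ne_one this
        have h8 : (χ u / χ w) * ((trace W u - b u : ℝ) : ℂ) + ((trace W w - b w : ℝ) : ℂ) = 0 := by
          push_cast
          field_simp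
          linear_combination h7
        have h9 : (χ u / χ w).im * (trace W u - b u) = 0 := by
          have := congrArg Complex.im h8
          simpa using this
        have h10 : trace W u = b u := by
          rcases mul_eq_zero.1 h9 with h | h
          · exact absurd h (hsep u w (by rw [hu1]; exact hv) (by rw [hu1, hw1]) huw)
          · linarith
        have h11 : trace W w = b w := by
          rw [h10, sub_self, Complex.ofReal_zero, mul_zero, zero_add] at h8
          have : trace W w - b w = 0 := by exact_mod_cast h8
          linarith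
        rw [hu, Finset.mem_insert, Finset.mem_singleton] at hmem
        rcases hmem with h | h
        · rw [h]
          exact h10
        · rw [h]
          exact h11
  · intro l l' hl hl'
    obtain ⟨h4, h5⟩ := pair hS (fun _ => norm_one) ha hb hl hl'
    refine ⟨?_, h5⟩
    rw [← h4]
    have h6 : {p : Nat.Primes | (p : ℕ) ∉ S ∧ (Sp p).val.map (trace W) ≠ (Sp p).val.map b} =
        {p : Nat.Primes | (p : ℕ) ∉ S ∧ locPoly (fun _ => 1) (trace W) p ≠
          locPoly (fun _ => 1) b p} := by
      ext p
      simp only [Set.mem_ofPred_eq]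
      refine and_congr_right fun hp => not_congr ?_
      rcases quad_cases hK hS hp with ⟨u, hu, _⟩ | ⟨u, w, huw, hu, hdu, hdw⟩
      · constructor
        · intro h
          refine hloc _ p fun v hv => ?_
          rw [hu, Finset.singleton_val, Multiset.map_singleton, Multiset.map_singleton] at h
          rw [hu, Finset.mem_singleton] at hv
          rw [hv]
          exact Multiset.singleton_inj.1 h
        · intro h
          have h7 := inert_eq hu (fun _ => norm_one) h
          rw [hu, Finset.singleton_val, Multiset.map_singleton, Multiset.map_singleton, h7]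
      · have hval : ∀ f : HeightOneSpectrum (𝓞 K) → ℝ, (Sp p).val.map f = {f u, f w} := by
          intro f
          rw [hu, Finset.insert_val_of_notMem (by simpa using huw)]
          simp
        have hpoly : ∀ f : HeightOneSpectrum (𝓞 K) → ℝ, locPoly (fun _ => 1) f p =
            (Polynomial.X ^ 2 - Polynomial.C (f u : ℂ) * Polynomial.X +
              Polynomial.C (nm u : ℂ)) *
            (Polynomial.X ^ 2 - Polynomial.C (f w : ℂ) * Polynomial.X +
              Polynomial.C (nm w : ℂ)) := by
          intro f
          unfold locPoly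
          rw [hu, Finset.prod_pair huw, hdu, hdw]
          simp
        have hnm : nm u = nm w := by
          have hu1 : pr u = p := (Pool.Agent.TH339.MP.mem_Sp _ _).1 (by rw [hu]; simp)
          have hw1 : pr w = p := (Pool.Agent.TH339.MP.mem_Sp _ _).1 (by rw [hu]; simp)
          rw [Pool.Agent.TH339.MP.nm_eq, Pool.Agent.TH339.MP.nm_eq, hu1, hw1, hdu, hdw]
        rw [hval, hval]
        constructor
        · intro h
          rw [hpoly, hpoly, hnm]
          rw [pair_iff] at h
          rcases h with ⟨h7, h8⟩ | ⟨h7, h8⟩
          · rw [h7, h8]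
          · rw [h7, h8, mul_comm]
        · intro h
          obtain ⟨h7, h8⟩ := split_eq huw hu hdu hdw h
          simp only [one_mul] at h7 h8
          have h9 : trace W u + trace W w = b u + b w := by exact_mod_cast h7
          have h10 : trace W u * trace W w = b u * b w := by exact_mod_cast h8
          have h11 : (trace W u - b u) * (trace W u - b w) = 0 := by
            have h12 : trace W w = b u + b w - trace W u := by linarith
            rw [h12] at h10
            linear_combination -h10
          rw [pair_iff]
          rcases mul_eq_zero.1 h11 with h | h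
          · left
            constructor <;> linarith
          · right
            constructor <;> linarith
    rw [h6]

end Pool.Agent.Results.MP_87c685_nt.ModularityCriterion
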