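import Mathlib
import Pool.Agent.R384.Z.Iq

/-!
# Two-dimensional representations of the Galois groups of imaginary quadratic fields which are
# potentially ordinary at a place above `2`

Let `K` and `S` be one of the following.

* `K = ℚ(√-d)` and `S = {2}`, where `d` is a prime number that is `7` modulo `16`, or the product of
  a prime number that is `5` modulo `8` and of a prime number that is `3` modulo `8`.
* `K = ℚ(√-1)`, `ℚ(√-2)`, `ℚ(√-q)` or `ℚ(√-2q)` and `S = {2, q}`, where `q` is a prime number that is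
  `3` or `5` modulo `8`.

Let `E` be a finite extension of `ℚ_2` (or the fraction field of any Noetherian local domain with
finite residue field of characteristic `2`), and let `V` be a continuous irreducible two-dimensional
`E`-representation of `G_K`, which is unramified outside `S` and residually unipotent.

Theorem: if at ONE place of `K` above `2` the representation `V` potentially contains a line (for
example if `V` is potentially ordinary at this place), then `V` is dihedral (induced from a character
of a quadratic extension of `K`) or its projective image is finite.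

Let `C` be an elliptic curve over `K` with good reduction outside `S` and a point of order `2` over
`K`. Then `V_2(C)` is residually unipotent, and its projective image is infinite. So if `C` has
potentially ordinary or potentially multiplicative reduction at one place above `2`, then `C` has
complex multiplication; it is modular, unless it has complex multiplication by an order in `K`. (This
deduction is not part of the formal proof.)
-/

set_option autoImplicit false

namespace Pool.Agent.Results.MP_87c685_nt.PotentiallyOrdinaryAtTwo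

open Matrix IsLocalRing

/-- An algebraic closure of `ℚ`. -/
abbrev QBar : Type := AlgebraicClosure ℚ

/-- The field `ℚ(s)`. It is `ℚ(√-d)` if `s² = -d`. -/
noncomputable abbrev K (s : QBar) : IntermediateField ℚ QBar := IntermediateField.adjoin ℚ {s}

/-- The absolute Galois group of `k` (it will be `ℚ(√-d)` or `ℚ`). -/
def Gal (k : Type) [Field k] [Algebra k QBar] : Type := QBar ≃ₐ[k] QBar

/-- its group structure -/
noncomputable instance instGroupGal (k : Type) [Field k] [Algebra k QBar] : Group (Gal k) :=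
  AlgEquiv.aut (R := k) (A₁ := QBar)

/-- its Krull topology -/
noncomputable instance instTopGal (k : Type) [Field k] [Algebra k QBar] :
    TopologicalSpace (Gal k) := krullTopology k QBar

/-- The action of the Galois group on `ℚ̄`. -/
noncomputable def app {k : Type} [Field k] [Algebra k QBar] (σ : Gal k) (x : QBar) : QBar :=
  (show QBar ≃ₐ[k] QBar from σ) x

/-- The class of the numbers `d`: the primes `7 mod 16`, and the products of a prime `5 mod 8` and of
a prime `3 mod 8`. -/
def InClass (d : ℕ) : Prop :=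
  (d.Prime ∧ d % 16 = 7) ∨ ∃ p q : ℕ, p.Prime ∧ q.Prime ∧ p % 8 = 5 ∧ q % 8 = 3 ∧ d = p * q

/-- The decomposition group of the place given by the embedding `ι` of `ℚ̄`. -/
def Dec {k : Type} [Field k] [Algebra k QBar] {p : ℕ} [Fact p.Prime]
    (ι : QBar →ₐ[ℚ] PadicAlgCl p) : Set (Gal k) :=
  {σ | ∃ τ : PadicAlgCl p ≃ₐ[ℚ_[p]] PadicAlgCl p, ∀ x, τ (ι x) = ι (app σ x)}

/-- Its inertia group: the automorphisms which are trivial on the residue field. -/
def Inr {k : Type} [Field k] [Algebra k QBar] {p : ℕ} [Fact p.Prime]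
    (ι : QBar →ₐ[ℚ] PadicAlgCl p) : Set (Gal k) :=
  {σ | ∃ τ : PadicAlgCl p ≃ₐ[ℚ_[p]] PadicAlgCl p, (∀ x, τ (ι x) = ι (app σ x)) ∧
    ∀ z : PadicAlgCl p, ‖z‖ ≤ 1 → ‖τ z - z‖ < 1}

/-- The subgroup of the automorphisms of `ℚ̄` which fix `t`, that is, `G_K` for `K = ℚ(t)`. -/
def Fixing (t : QBar) : Subgroup (Gal ℚ) where
  carrier := {σ | app σ t = t}
  mul_mem' := fun {a b} ha hb => (Pool.Agent.Z384.Fx t).mul_mem ha hb
  one_mem' := (Pool.Agent.Z384.Fx t).one_mem
  inv_mem' := fun {a} ha => (Pool.Agent.Z384.Fx t).inv_mem ha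

/-- The representation `ρ` of the group `H = G_K` is continuous, residually
unipotent and unramified outside `S`. -/
structure Admissible {k : Type} [Field k] [Algebra k QBar] (S : Set ℕ) {H : Subgroup (Gal k)}
    {A : Type} [CommRing A] [IsLocalRing A] [TopologicalSpace A] (ρ : H →* GL (Fin 2) A) :
    Prop where
  cont : ∀ i j, Continuous fun σ => (ρ σ : Matrix (Fin 2) (Fin 2) A) i j
  unipotent : ∀ σ, ∃ m : ℕ, ∀ i j,
    (((ρ σ : Matrix (Fin 2) (Fin 2) A) - 1) ^ m) i j ∈ maximalIdeal A
  unramified : ∀ (p : ℕ) [Fact p.Prime] (ι : QBar →ₐ[ℚ] PadicAlgCl p), p ∉ S →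
    ∀ σ : H, (σ : Gal k) ∈ Inr ι → ρ σ = 1

/-- The action of `σ` on `V = F ^ 2`. -/
noncomputable def act {k : Type} [Field k] [Algebra k QBar] {H : Subgroup (Gal k)} {A : Type}
    [CommRing A] (F : Type) [Field F] [Algebra A F] (ρ : H →* GL (Fin 2) A) (σ : H)
    (v : Fin 2 → F) : Fin 2 → F :=
  ((ρ σ : Matrix (Fin 2) (Fin 2) A).map (algebraMap A F)) *ᵥ v

/-- `V` is irreducible. -/
def Irreducible {k : Type} [Field k] [Algebra k QBar] {H : Subgroup (Gal k)} {A : Type}
    [CommRing A] (F : Type) [Field F] [Algebra A F] (ρ : H →* GL (Fin 2) A) : Prop :=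
  ∀ W : Submodule F (Fin 2 → F), (∀ σ, ∀ w ∈ W, act F ρ σ w ∈ W) → W = ⊥ ∨ W = ⊤

/-- `V` potentially contains a line on `D`: some nonzero vector of `V` is an eigenvector of all
elements of a subgroup `D'` of `H`, finitely many left cosets of which cover the elements of `H` which
are in `D`. -/
def PotentialLine {k : Type} [Field k] [Algebra k QBar] {H : Subgroup (Gal k)} {A : Type}
    [CommRing A] (F : Type) [Field F] [Algebra A F] (ρ : H →* GL (Fin 2) A)
    (D : Set (Gal k)) : Prop :=
  ∃ (D' : Subgroup H) (R : Set H) (v : Fin 2 → F), R.Finite ∧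
    (∀ δ : H, (δ : Gal k) ∈ D → ∃ r ∈ R, r⁻¹ * δ ∈ D') ∧ v ≠ 0 ∧
    ∀ δ ∈ D', ∃ c : F, act F ρ δ v = c • v

/-- The projective image is finite: an open normal subgroup acts by scalars. -/
def ProjectivelyFinite {k : Type} [Field k] [Algebra k QBar] {H : Subgroup (Gal k)} {A : Type}
    [CommRing A] (F : Type) [Field F] [Algebra A F] (ρ : H →* GL (Fin 2) A) : Prop :=
  ∃ S : Subgroup H, S.Normal ∧ S.FiniteIndex ∧ IsOpen (S : Set H) ∧
    ∀ σ ∈ S, ∃ c : F, ∀ w, act F ρ σ w = c • w

/-- `V` is dihedral: an open subgroup of index two preserves a line. -/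
def Dihedral {k : Type} [Field k] [Algebra k QBar] {H : Subgroup (Gal k)} {A : Type}
    [CommRing A] (F : Type) [Field F] [Algebra A F] (ρ : H →* GL (Fin 2) A) : Prop :=
  ∃ (T : Subgroup H) (v : Fin 2 → F), T.index = 2 ∧ IsOpen (T : Set H) ∧ v ≠ 0 ∧
    ∀ σ ∈ T, ∃ c : F, act F ρ σ v = c • v

/-- The assertion for the group `H = G_K` and the set `S`: irreducible two-dimensional representations
which potentially contain a line at one place above `2` are dihedral or projectively finite. -/
def OneLineSuffices {k : Type} [Field k] [Algebra k QBar] (S : Set ℕ) (H : Subgroup (Gal k)) :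
    Prop :=
  ∀ (A : Type) [CommRing A] [IsLocalRing A] [IsNoetherianRing A] [TopologicalSpace A],
      IsAdic (maximalIdeal A) → Finite (ResidueField A) → (2 : A) ∈ maximalIdeal A →
    ∀ (F : Type) [Field F] [Algebra A F] [IsFractionRing A F] (ρ : H →* GL (Fin 2) A),
      Admissible S ρ → Irreducible F ρ → ∀ ι : QBar →ₐ[ℚ] PadicAlgCl 2,
        PotentialLine F ρ (Dec ι) → ProjectivelyFinite F ρ ∨ Dihedral F ρ

/-- **Irreducible two-dimensional representations which potentially contain a line at one place above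
`2`.** The first part is about `K = ℚ(√-d)`, the second one about `K = ℚ(√-e)`. -/
theorem result :
    (∀ d : ℕ, InClass d → ∀ s : QBar, s ^ 2 = -(d : QBar) →
      OneLineSuffices {2} (⊤ : Subgroup (Gal (K s)))) ∧
    (∀ q : ℕ, q.Prime → q % 8 = 3 ∨ q % 8 = 5 → ∀ e : ℕ, e = 1 ∨ e = 2 ∨ e = q ∨ e = 2 * q →
      ∀ t : QBar, t ^ 2 = -(e : QBar) → OneLineSuffices {2, q} (Fixing t)) := by
  constructor
  · intro d hd s hs A _ _ _ _ hA hfin h2 F _ _ _ ρ hρ hirr ι hline
    obtain ⟨D', R, v, hRf, hR, hv, hD'⟩ := hline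
    rcases Pool.Agent.Z384.fm2 hs hd (N := ⊤) le_top inferInstance ⟨0, by simp⟩ isOpen_univ
      (fun p _ ι hp σ hσ => trivial) hA hfin h2
      hρ.cont hρ.unipotent (fun p _ ι hp σ hσ => hρ.unramified p ι (by simpa using hp) σ hσ) ι
      hRf hR hirr hv hD' with h | h
    · exact Or.inl h
    · obtain ⟨T, h3, h4, h5⟩ := h
      exact Or.inr ⟨T, v, h3, h4, hv, h5⟩
  · intro q hq hq8 e he t ht A _ _ _ _ hA hfin h2 F _ _ _ ρ hρ hirr ι hline
    obtain ⟨D', R, v, hRf, hR, hv, hD'⟩ := hline
    have he0 : e ≠ 0 := by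
      have := hq.ne_zero
      rcases he with h | h | h | h <;> omega
    have hpe : ∀ p : ℕ, p.Prime → p ≠ 2 → p ≠ q → ¬ p ∣ e := by
      intro p hp hp2 hpq hd
      have h3 : p ∣ 2 * q := by
        rcases he with h | h | h | h
        · rw [h] at hd
          exact absurd (Nat.dvd_one.1 hd) hp.one_lt.ne'
        · rw [h] at hd
          exact hd.mul_right q
        · rw [h] at hd
          exact hd.mul_left 2
        · rwa [h] at hd
      rcases (Nat.Prime.dvd_mul hp).1 h3 with h | h
      · exact hp2 ((Nat.prime_dvd_prime_iff_eq hp Nat.prime_two).1 h)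
      · exact hpq ((Nat.prime_dvd_prime_iff_eq hp hq).1 h)
    rcases Pool.Agent.Z384.fmHQ2 hq hq8 (H := Pool.Agent.Z384.Fx t) (N := Pool.Agent.Z384.Fx t)
      le_rfl (Pool.Agent.Z384.Fx_normal ht) (Pool.Agent.Z384.Fx_index ht he0)
      (Pool.Agent.Z384.Fx_open t)
      (fun p hp' ι hp hpq σ hσ =>
        Pool.Agent.Z384.Fx_unr ht hp (hpe p hp'.out hp hpq) ι hσ) hA hfin h2
      hρ.cont hρ.unipotent
      (fun p _ ι hp hpq σ hσ => hρ.unramified p ι (by simp [hp, hpq]) σ hσ) ι
      hRf hR hirr hv hD' with h | h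
    · exact Or.inl h
    · obtain ⟨T, h3, h4, h5⟩ := h
      exact Or.inr ⟨T, v, h3, h4, hv, h5⟩

end Pool.Agent.Results.MP_87c685_nt.PotentiallyOrdinaryAtTwo
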